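import Pool.Agent.Lib.MP_2795bc_gt.RS.Main

/-!
# MP_2795bc_gt, Q1: a compact Ricci soliton which is not Einstein, not locally Kähler and not
locally decomposable

The definitions are in `Pool/Agent/Lib/MP_2795bc_gt/RS/Defs.lean`.
-/

open Pool.Agent.Lib.MP_2795bc_gt.RS

namespace Pool.Agent.Results.MP_2795bc_gt.NonKahlerSoliton

/-- There is a closed Ricci soliton of dimension `7` which is not Einstein, not locally Kähler and
not locally decomposable. -/
theorem result :
    ∃ (M : Mfd 7) (g : Metric M) (V : Field M),
      IsRicciSoliton g V 1 ∧ ¬ IsEinstein g ∧ ¬ LocKahler g ∧ ¬ LocDecomposable g :=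
  main

end Pool.Agent.Results.MP_2795bc_gt.NonKahlerSoliton
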